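import Pool.Agent.H61.CM4.TargetsB
import Pool.Agent.H11.HK.BD

/-!
# The completed Epstein zeta functions over a totally real field (PHI)
-/

set_option autoImplicit false

open MeasureTheory Set Filter NumberField NumberField.InfinitePlace NumberField.Units
  NumberField.Units.dirichletUnitTheorem Pool.Agent.H65.CM4 Pool.Agent.H25.HK Pool.Agent.H61.CM4
open scoped Real

namespace Pool.Agent.H63.CM4B

/-- the completed function of a pair of functions, without poles -/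
noncomputable def PhiF (P : WeakFEPair ℂ) (m : ℝ) (n : ℕ) (s : ℂ) : ℂ :=
  (m : ℂ) ^ s * 2 ^ (n - 1) * ((s * (s - 1)) ^ n * P.Λ₀ (2 * s) -
    (s * (s - 1)) ^ (n - 1) * ((s - 1) / 2) * P.f₀ +
    (s * (s - 1)) ^ (n - 1) * (s / 2) * (P.ε * P.g₀))

theorem PhiF_eq (P : WeakFEPair ℂ) (m : ℝ) (n : ℕ) (hn : 0 < n) (hk : P.k = 2) (s : ℂ)
    (h0 : s ≠ 0) (h1 : s ≠ 1) :
    PhiF P m n s = (m : ℂ) ^ s * 2 ^ (n - 1) * ((s * (s - 1)) ^ n * P.Λ (2 * s)) := by
  unfold PhiF WeakFEPair.Λ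
  rw [hk]
  obtain ⟨l, rfl⟩ : ∃ l, n = l + 1 := ⟨n - 1, by omega⟩
  rw [Nat.add_sub_cancel]
  simp only [smul_eq_mul]
  have h2 : (2 : ℂ) - 2 * s ≠ 0 := by
    intro h
    apply h1
    linear_combination (-1 / 2 : ℂ) * h
  have h3 : (((2 : ℝ) : ℂ)) = 2 := by norm_num
  rw [h3]
  have e1 : (s * (s - 1)) ^ (l + 1) * (1 / (2 * s) * P.f₀) =
      (s * (s - 1)) ^ l * ((s - 1) / 2) * P.f₀ := by
    rw [pow_succ]
    field_simp
  have e2 : (s * (s - 1)) ^ (l + 1) * (P.ε / (2 - 2 * s) * P.g₀) =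
      -((s * (s - 1)) ^ l * (s / 2) * (P.ε * P.g₀)) := by
    rw [pow_succ]
    field_simp
    ring
  linear_combination ((m : ℂ) ^ s * 2 ^ l) * e1 + ((m : ℂ) ^ s * 2 ^ l) * e2

theorem PhiF_diff (P : WeakFEPair ℂ) (m : ℝ) (n : ℕ) (hm : 0 < m) :
    Differentiable ℂ (PhiF P m n) := by
  have h1 : Differentiable ℂ fun s : ℂ => P.Λ₀ (2 * s) :=
    P.differentiable_Λ₀.comp (by fun_prop : Differentiable ℂ fun s : ℂ => 2 * s)
  have h2 : Differentiable ℂ fun s : ℂ => (m : ℂ) ^ s := by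
    intro s
    exact differentiableAt_id.const_cpow (Or.inl (by exact_mod_cast hm.ne'))
  unfold PhiF
  fun_prop

theorem PhiF_growth (P : WeakFEPair ℂ) (m : ℝ) (n : ℕ) (hm : 1 ≤ m) (b : ℝ) :
    ∃ (C : ℝ) (j : ℕ), ∀ s : ℂ, |s.re| ≤ b → ‖PhiF P m n s‖ ≤ C * (1 + |s.im|) ^ j := by
  obtain ⟨C₀, hC₀⟩ := Pool.Agent.H11.HK.bd P (2 * b)
  refine ⟨m ^ b * 2 ^ (n - 1) * ((2 + |b|) ^ (2 * n + 1) * (C₀ + ‖P.f₀‖ + ‖P.ε * P.g₀‖)),
    2 * n + 1, ?_⟩
  intro s hs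
  have hm0 : 0 < m := by linarith
  have hb0 : 0 ≤ b := le_trans (abs_nonneg _) hs
  have hbb : |b| = b := abs_of_nonneg hb0
  set T : ℝ := 1 + |s.im| with hT
  have hT1 : 1 ≤ T := by
    have := abs_nonneg s.im
    linarith
  set B : ℝ := 2 + |b| with hB
  have hB2 : 2 ≤ B := by
    have := abs_nonneg b
    linarith
  have hBT : 1 ≤ B * T := by nlinarith
  have hs1 : ‖s‖ ≤ B * T := by
    have h1 := Complex.norm_le_abs_re_add_abs_im s
    have h2 : |s.re| ≤ |b| := by rw [hbb]; exact hs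
    have h3 := abs_nonneg s.im
    have h4 := abs_nonneg b
    nlinarith
  have hs2 : ‖s - 1‖ ≤ B * T := by
    have h0 := norm_sub_le s 1
    rw [norm_one] at h0
    have h1 := Complex.norm_le_abs_re_add_abs_im s
    have h2 : |s.re| ≤ |b| := by rw [hbb]; exact hs
    have h3 := abs_nonneg s.im
    have h4 := abs_nonneg b
    nlinarith
  have hpow : ∀ l : ℕ, ‖(s * (s - 1)) ^ l‖ ≤ (B * T) ^ (2 * l) := by
    intro l
    rw [norm_pow, norm_mul, pow_mul]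
    refine pow_le_pow_left₀ (by positivity) ?_ l
    rw [sq]
    exact mul_le_mul hs1 hs2 (norm_nonneg _) (by linarith)
  have hms : ‖(m : ℂ) ^ s‖ ≤ m ^ b := by
    rw [Complex.norm_cpow_eq_rpow_re_of_pos hm0]
    exact Real.rpow_le_rpow_of_exponent_le hm (le_trans (le_abs_self _) hs)
  have hL : ‖P.Λ₀ (2 * s)‖ ≤ C₀ := by
    refine hC₀ _ ?_
    have : (2 * s).re = 2 * s.re := by simp
    rw [this, abs_mul, abs_two]
    linarith
  have hC₀0 : 0 ≤ C₀ := le_trans (norm_nonneg _) hL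
  have e1 : ‖(s * (s - 1)) ^ n * P.Λ₀ (2 * s)‖ ≤ (B * T) ^ (2 * n + 1) * C₀ := by
    rw [norm_mul]
    refine mul_le_mul ((hpow n).trans ?_) hL (norm_nonneg _) (by positivity)
    exact pow_le_pow_right₀ hBT (by omega)
  have e2 : ‖(s * (s - 1)) ^ (n - 1) * ((s - 1) / 2) * P.f₀‖ ≤
      (B * T) ^ (2 * n + 1) * ‖P.f₀‖ := by
    rw [norm_mul, norm_mul]
    refine mul_le_mul_of_nonneg_right ?_ (norm_nonneg _)
    have h1 : ‖(s - 1) / 2‖ ≤ B * T := by
      rw [norm_div, Complex.norm_ofNat]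
      have := norm_nonneg (s - 1)
      linarith
    refine (mul_le_mul (hpow (n - 1)) h1 (norm_nonneg _) (by positivity)).trans ?_
    rw [← pow_succ]
    exact pow_le_pow_right₀ hBT (by omega)
  have e3 : ‖(s * (s - 1)) ^ (n - 1) * (s / 2) * (P.ε * P.g₀)‖ ≤
      (B * T) ^ (2 * n + 1) * ‖P.ε * P.g₀‖ := by
    rw [norm_mul, norm_mul]
    refine mul_le_mul_of_nonneg_right ?_ (norm_nonneg _)
    have h1 : ‖s / 2‖ ≤ B * T := by
      rw [norm_div, Complex.norm_ofNat]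
      have := norm_nonneg s
      linarith
    refine (mul_le_mul (hpow (n - 1)) h1 (norm_nonneg _) (by positivity)).trans ?_
    rw [← pow_succ]
    exact pow_le_pow_right₀ hBT (by omega)
  have e4 : ‖(s * (s - 1)) ^ n * P.Λ₀ (2 * s) - (s * (s - 1)) ^ (n - 1) * ((s - 1) / 2) * P.f₀ +
      (s * (s - 1)) ^ (n - 1) * (s / 2) * (P.ε * P.g₀)‖ ≤
      (B * T) ^ (2 * n + 1) * (C₀ + ‖P.f₀‖ + ‖P.ε * P.g₀‖) := by
    refine (norm_add_le _ _).trans ?_
    have := norm_sub_le ((s * (s - 1)) ^ n * P.Λ₀ (2 * s))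
      ((s * (s - 1)) ^ (n - 1) * ((s - 1) / 2) * P.f₀)
    rw [mul_add, mul_add]
    linarith
  have e5 : ‖(m : ℂ) ^ s * 2 ^ (n - 1)‖ ≤ m ^ b * 2 ^ (n - 1) := by
    rw [norm_mul, norm_pow, Complex.norm_ofNat]
    exact mul_le_mul_of_nonneg_right hms (by positivity)
  unfold PhiF
  rw [norm_mul]
  refine (mul_le_mul e5 e4 (norm_nonneg _) (by positivity)).trans (le_of_eq ?_)
  rw [mul_pow]
  ring

/-- scaling of the Dirichlet series -/
theorem Zd_eq {k : Type} [Field k] [NumberField k] [IsTotallyReal k] (M : La k) (x y : Pl k → ℝ)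
    (hq : ∀ u : V2 k, u ≠ 0 → 0 < qp x y u) (h0 : ∀ u : V2 k, u ∈ Fo k → u ≠ 0) (a : ℝ)
    (ha : 0 < a) (s : ℂ) :
    Zd M x y a s = (a : ℂ) ^ (-s) * Zd M x y 1 s := by
  unfold Zd
  rw [← tsum_mul_left]
  refine tsum_congr fun u => ?_
  split_ifs with hu
  · have h1 := hq u (h0 u hu.2)
    rw [one_mul, Complex.ofReal_mul, Complex.mul_cpow_ofReal_nonneg ha.le h1.le]
  · rw [mul_zero]

open scoped Classical in
/-- (PHI) the completed function. -/
theorem pf_PHI (hIXD : T_IXD) (hWP2 : T_WP2) (hME2 : T_ME2) : T_PHI := by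
  intro k _ _ _ M x y hM hy
  obtain ⟨hdk, hdg, -, -, hdu, -⟩ := hIXD k
  obtain ⟨P, hPf, hPg, hPk, hPe, hPf0, hPg0⟩ := hWP2 k M x y hM hy
  have hq : ∀ u : V2 k, u ≠ 0 → 0 < qp x y u :=
    (hME2 k M x y 2 hM hy (by norm_num)).1
  have hFo : ∀ u : V2 k, u ∈ Fo k → u ≠ 0 := fun u hu => hu.1
  have hmN : 0 < ix M := Nat.pos_of_ne_zero hM
  have hm1 : (1 : ℝ) ≤ (ix M : ℝ) := by exact_mod_cast hmN
  have hm0 : (0 : ℝ) < (ix M : ℝ) := by linarith
  have hDN : 0 < Dm M := Nat.mul_pos hdk hmN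
  have hD0 : (0 : ℝ) < (Dm M : ℝ) := by exact_mod_cast hDN
  have hdk0 : (0 : ℝ) < (dk k : ℝ) := by exact_mod_cast hdk
  have hgG : ∀ s : ℂ, (s * (s - 1)) ^ dg k *
      (Complex.Gamma s * (2 * (π : ℂ)) ^ (-s)) ^ dg k = gG s ^ dg k := by
    intro s
    rw [← mul_pow]
    unfold gG
    congr 1
    ring
  have h2n : (2 : ℂ) ^ (dg k - 1) * (2 * ((2 : ℂ) ^ dg k)⁻¹) = 1 := by
    obtain ⟨l, hl⟩ : ∃ l, dg k = l + 1 := ⟨dg k - 1, by omega⟩
    rw [hl, Nat.add_sub_cancel, pow_succ]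
    have : (2 : ℂ) ^ l ≠ 0 := pow_ne_zero _ two_ne_zero
    field_simp
  have hZ1 : ∀ (M' : La k) (s : ℂ), (∑' u : V2 k, if u ∈ M' ∧ u ∈ Fo k then
      ((qp x y u : ℝ) : ℂ) ^ (-s) else 0) = Zd M' x y 1 s := by
    intro M' s
    unfold Zd
    simp only [one_mul]
  refine ⟨PhiF P (ix M : ℝ) (dg k), PhiF_diff P _ _ hm0, ?_, ?_, PhiF_growth P _ _ hm1⟩
  · intro s hs
    have hs0 : s ≠ 0 := by
      intro h
      rw [h, Complex.zero_re] at hs
      linarith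
    have hs1 : s ≠ 1 := by
      intro h
      rw [h, Complex.one_re] at hs
      exact lt_irrefl _ hs
    rw [PhiF_eq P _ _ hdg hPk s hs0 hs1]
    have hre : P.k < (2 * s).re := by
      rw [hPk]
      have : (2 * s).re = 2 * s.re := by simp
      rw [this]
      linarith
    have h1 := (P.hasMellin hre).2
    have h2 : (fun t => P.f t - P.f₀) = fun t => ((f2 M x y t - vF k : ℝ) : ℂ) := by
      funext t
      rw [hPf, hPf0]
      push_cast
      ring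
    rw [h2, (hME2 k M x y s hM hy hs).2.2, hZ1] at h1
    rw [← h1, Zd_eq M x y hq hFo _ (inv_pos.2 hm0) s, ← hgG]
    have h3 : (((ix M : ℝ)⁻¹ : ℝ) : ℂ) ^ (-s) = ((ix M : ℝ) : ℂ) ^ s := by
      rw [Complex.ofReal_inv, Complex.inv_cpow, Complex.cpow_neg, inv_inv]
      rw [Complex.arg_ofReal_of_nonneg hm0.le]
      exact Real.pi_pos.ne
    rw [h3]
    linear_combination (((ix M : ℝ) : ℂ) ^ s * (s * (s - 1)) ^ dg k *
      (Complex.Gamma s * (2 * (π : ℂ)) ^ (-s)) ^ dg k * Zd M x y 1 s) * h2n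
  · intro s hs
    have hs0 : (1 - s : ℂ) ≠ 0 := by
      intro h
      have h1 : s = 1 := by linear_combination -h
      rw [h1, Complex.one_re] at hs
      exact lt_irrefl _ hs
    have hs1 : (1 - s : ℂ) ≠ 1 := by
      intro h
      have h1 : s = 0 := by linear_combination -h
      rw [h1, Complex.zero_re] at hs
      linarith
    rw [PhiF_eq P _ _ hdg hPk (1 - s) hs0 hs1]
    have hre : P.symm.k < (2 * s).re := by
      change P.k < _
      rw [hPk]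
      have : (2 * s).re = 2 * s.re := by simp
      rw [this]
      linarith
    have h0 : P.Λ (2 * (1 - s)) = P.ε • P.symm.Λ (2 * s) := by
      rw [← P.functional_equation, hPk]
      congr 1
      push_cast
      ring
    have h1 := (P.symm.hasMellin hre).2
    have hDn : (0 : ℝ) < ((Dm M : ℝ) ^ dg k)⁻¹ := by positivity
    have h2 : (fun t => P.symm.f t - P.symm.f₀) =
        fun t => (fun r => ((f2 (du M) x y r - vF k : ℝ) : ℂ)) (((Dm M : ℝ) ^ dg k)⁻¹ * t) := by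
      funext t
      change P.g t - P.g₀ = _
      rw [hPg, hPg0]
      push_cast
      ring
    have h8 := mellin_comp_mul_left (fun r => ((f2 (du M) x y r - vF k : ℝ) : ℂ)) (2 * s) hDn
    rw [h2] at h1
    replace h1 := h8.symm.trans h1
    rw [(hME2 k (du M) x y s (hdu M hM) hy hs).2.2, hZ1, smul_eq_mul] at h1
    rw [h0, ← h1, hPe, smul_eq_mul, Zd_eq (du M) x y hq hFo
      ((ix M : ℝ) / (Dm M : ℝ) ^ (2 * dg k)) (by positivity) s, ← hgG]
    have h3 : ((((Dm M : ℝ) ^ dg k)⁻¹ : ℝ) : ℂ) ^ (-(2 * s)) =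
        (((Dm M : ℝ) ^ (2 * dg k) : ℝ) : ℂ) ^ s := by
      rw [Complex.cpow_def_of_ne_zero (by exact_mod_cast hDn.ne'),
        Complex.cpow_def_of_ne_zero (by exact_mod_cast (pow_pos hD0 _).ne'),
        ← Complex.ofReal_log hDn.le, ← Complex.ofReal_log (pow_pos hD0 _).le, Real.log_inv,
        Real.log_pow, Real.log_pow]
      congr 1
      push_cast
      ring
    have h4 : ((((ix M : ℝ) / (Dm M : ℝ) ^ (2 * dg k)) : ℝ) : ℂ) ^ (-s) =
        ((ix M : ℝ) : ℂ) ^ (-s) * (((Dm M : ℝ) ^ (2 * dg k) : ℝ) : ℂ) ^ s := by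
      have h5 : (0 : ℝ) < (ix M : ℝ) / (Dm M : ℝ) ^ (2 * dg k) := by positivity
      rw [Complex.cpow_def_of_ne_zero (by exact_mod_cast h5.ne'),
        Complex.cpow_def_of_ne_zero (by exact_mod_cast hm0.ne'),
        Complex.cpow_def_of_ne_zero (by exact_mod_cast (pow_pos hD0 _).ne'),
        ← Complex.ofReal_log h5.le, ← Complex.ofReal_log hm0.le,
        ← Complex.ofReal_log (pow_pos hD0 _).le,
        Real.log_div hm0.ne' (pow_pos hD0 _).ne', ← Complex.exp_add]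
      congr 1
      push_cast
      ring
    have h5 : ((ix M : ℝ) : ℂ) ^ (1 - s) = ((ix M : ℝ) : ℂ) * ((ix M : ℝ) : ℂ) ^ (-s) := by
      rw [sub_eq_add_neg, Complex.cpow_add _ _ (by exact_mod_cast hm0.ne'), Complex.cpow_one]
    have h6 : ((1 / dk k : ℝ) : ℂ) = ((ix M : ℝ) : ℂ) * (((Dm M : ℝ)⁻¹ : ℝ) : ℂ) := by
      rw [← Complex.ofReal_mul]
      congr 1
      unfold Dm
      push_cast
      field_simp
    have h7 : ((1 - s) * (1 - s - 1)) ^ dg k = (s * (s - 1)) ^ dg k := by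
      congr 1
      ring
    rw [h3, h4, h5, h6, h7]
    linear_combination (((ix M : ℝ) : ℂ) * ((ix M : ℝ) : ℂ) ^ (-s) * (((Dm M : ℝ)⁻¹ : ℝ) : ℂ) *
      (((Dm M : ℝ) ^ (2 * dg k) : ℝ) : ℂ) ^ s * (s * (s - 1)) ^ dg k *
      (Complex.Gamma s * (2 * (π : ℂ)) ^ (-s)) ^ dg k * Zd (du M) x y 1 s) * h2n

end Pool.Agent.H63.CM4B
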